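import Pool.Agent.H52.XR2.S2

/-!
# Project XR2, row SEG: directions without boundary segments are dense
-/

set_option autoImplicit false

open MeasureTheory Set Filter Topology Metric
open scoped Real ENNReal RealInnerProductSpace

namespace Pool.XR2

open Pool.Agent.H45.XR

namespace SEG

/-- the face of `K` in the direction `n` -/
def F (K : Set E3) (n : E3) : Set E3 := {x | x ∈ K ∧ ∀ z ∈ K, ⟪n, z⟫ ≤ ⟪n, x⟫}

/-- the cone from `x₀` over the face -/
def C (K : Set E3) (x₀ n : E3) : Set E3 := convexHull ℝ (insert x₀ (F K n))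

lemma nonempty_F {K : Set E3} (hK : IsConvexBody K) (n : E3) : ∃ a, a ∈ F K n := by
  obtain ⟨x, hx, hmax⟩ := hK.2.1.exists_isMaxOn (hK.2.2.mono interior_subset)
    (f := fun z => ⟪n, z⟫) (by fun_prop)
  exact ⟨x, hx, fun z hz => hmax hz⟩

lemma pos_of_interior {K : Set E3} {x₀ n a : E3} (hx : x₀ ∈ interior K) (hn : ‖n‖ = 1)
    (ha : a ∈ F K n) : 0 < ⟪n, a - x₀⟫ := by
  have h1 : ∀ᶠ t : ℝ in 𝓝[>] 0, x₀ + t • n ∈ K := by
    have hc : ContinuousAt (fun t : ℝ => x₀ + t • n) 0 := by fun_prop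
    have h2 : K ∈ 𝓝 (x₀ + (0 : ℝ) • n) := by
      simpa using mem_interior_iff_mem_nhds.1 hx
    exact Filter.Eventually.filter_mono nhdsWithin_le_nhds (hc.preimage_mem_nhds h2)
  obtain ⟨t, ht, ht0⟩ := (h1.and self_mem_nhdsWithin).exists
  have h3 := ha.2 _ ht
  rw [inner_add_right, inner_smul_right, real_inner_self_eq_norm_sq, hn] at h3
  rw [inner_sub_right]
  have ht0' : (0 : ℝ) < t := ht0
  linarith

/-- on the cone over the face of `n` the functional of `n` dominates -/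
lemma le_of_mem {K : Set E3} {x₀ n n' a a' : E3} (hx : x₀ ∈ interior K)
    (hn : ‖n‖ = 1) (hn' : ‖n'‖ = 1) (ha : a ∈ F K n) (ha' : a' ∈ F K n') {x : E3}
    (hxC : x ∈ C K x₀ n) :
    ⟪n', x - x₀⟫ / ⟪n', a' - x₀⟫ ≤ ⟪n, x - x₀⟫ / ⟪n, a - x₀⟫ := by
  have hD := pos_of_interior hx hn ha
  have hD' := pos_of_interior hx hn' ha'
  set w : E3 := (⟪n', a' - x₀⟫)⁻¹ • n' - (⟪n, a - x₀⟫)⁻¹ • n with hw
  have hconv : Convex ℝ {x : E3 | ⟪w, x⟫ ≤ ⟪w, x₀⟫} :=
    convex_halfSpace_le (f := fun x : E3 => ⟪w, x⟫)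
      ⟨fun x y => inner_add_right _ _ _, fun c x => by simp [inner_smul_right]⟩ _
  have hsub : C K x₀ n ⊆ {x : E3 | ⟪w, x⟫ ≤ ⟪w, x₀⟫} := by
    refine convexHull_min ?_ hconv
    intro y hy
    rcases mem_insert_iff.1 hy with rfl | hy
    · exact le_refl (⟪w, y⟫)
    · simp only [mem_ofPred_eq]
      have h1 : ⟪n', y⟫ ≤ ⟪n', a'⟫ := ha'.2 y hy.1
      have h2 : ⟪n, y⟫ = ⟪n, a⟫ := le_antisymm (ha.2 y hy.1) (hy.2 a ha.1)
      have h3 : ⟪w, y⟫ - ⟪w, x₀⟫ = ⟪n', y - x₀⟫ / ⟪n', a' - x₀⟫ - ⟪n, y - x₀⟫ / ⟪n, a - x₀⟫ := by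
        rw [hw, ← inner_sub_right, inner_sub_left, real_inner_smul_left, real_inner_smul_left]
        ring
      have h4 : ⟪n, y - x₀⟫ / ⟪n, a - x₀⟫ = 1 := by
        rw [inner_sub_right, h2, ← inner_sub_right, div_self hD.ne']
      have h5 : ⟪n', y - x₀⟫ / ⟪n', a' - x₀⟫ ≤ 1 := by
        rw [div_le_one hD', inner_sub_right, inner_sub_right]
        linarith
      linarith
  have h6 := hsub hxC
  simp only [mem_ofPred_eq] at h6
  have h7 : ⟪w, x⟫ - ⟪w, x₀⟫ = ⟪n', x - x₀⟫ / ⟪n', a' - x₀⟫ - ⟪n, x - x₀⟫ / ⟪n, a - x₀⟫ := by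
    rw [hw, ← inner_sub_right, inner_sub_left, real_inner_smul_left, real_inner_smul_left]
    ring
  linarith

/-- cones over faces with different normals have disjoint interiors -/
lemma eq_of_inter {K : Set E3} (hK : IsConvexBody K) {x₀ n n' : E3} (hx : x₀ ∈ interior K)
    (hn : ‖n‖ = 1) (hn' : ‖n'‖ = 1)
    (h : (interior (C K x₀ n) ∩ interior (C K x₀ n')).Nonempty) : n = n' := by
  obtain ⟨a, ha⟩ := nonempty_F hK n
  obtain ⟨a', ha'⟩ := nonempty_F hK n'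
  have hD := pos_of_interior hx hn ha
  have hD' := pos_of_interior hx hn' ha'
  set w : E3 := (⟪n', a' - x₀⟫)⁻¹ • n' - (⟪n, a - x₀⟫)⁻¹ • n with hw
  have key : ∀ x, x ∈ C K x₀ n → x ∈ C K x₀ n' → ⟪w, x⟫ = ⟪w, x₀⟫ := by
    intro x h1 h2
    have e1 := le_of_mem hx hn hn' ha ha' h1
    have e2 := le_of_mem hx hn' hn ha' ha h2
    have h7 : ⟪w, x⟫ - ⟪w, x₀⟫ = ⟪n', x - x₀⟫ / ⟪n', a' - x₀⟫ - ⟪n, x - x₀⟫ / ⟪n, a - x₀⟫ := by
      rw [hw, ← inner_sub_right, inner_sub_left, real_inner_smul_left, real_inner_smul_left]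
      ring
    linarith
  obtain ⟨x, hx1, hx2⟩ := h
  have hc : ContinuousAt (fun t : ℝ => x + t • w) 0 := by fun_prop
  have h3 : ∀ᶠ t : ℝ in 𝓝[>] 0, x + t • w ∈ C K x₀ n := by
    have h2 : C K x₀ n ∈ 𝓝 (x + (0 : ℝ) • w) := by
      simpa using mem_interior_iff_mem_nhds.1 hx1
    exact Filter.Eventually.filter_mono nhdsWithin_le_nhds (hc.preimage_mem_nhds h2)
  have h4 : ∀ᶠ t : ℝ in 𝓝[>] 0, x + t • w ∈ C K x₀ n' := by
    have h2 : C K x₀ n' ∈ 𝓝 (x + (0 : ℝ) • w) := by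
      simpa using mem_interior_iff_mem_nhds.1 hx2
    exact Filter.Eventually.filter_mono nhdsWithin_le_nhds (hc.preimage_mem_nhds h2)
  obtain ⟨t, ⟨ht1, ht2⟩, ht0⟩ := ((h3.and h4).and self_mem_nhdsWithin).exists
  have ht0' : (0 : ℝ) < t := ht0
  have e1 := key x (interior_subset hx1) (interior_subset hx2)
  have e2 := key _ ht1 ht2
  rw [inner_add_right, inner_smul_right, e1] at e2
  have e3 : t * ⟪w, w⟫ = 0 := by linarith
  have e4 : ⟪w, w⟫ = 0 := by
    rcases mul_eq_zero.1 e3 with h | h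
    · exact absurd h ht0'.ne'
    · exact h
  have e5 : w = 0 := inner_self_eq_zero.1 e4
  have e6 : (⟪n', a' - x₀⟫)⁻¹ • n' = (⟪n, a - x₀⟫)⁻¹ • n := sub_eq_zero.1 e5
  have e7 := congrArg norm e6
  rw [norm_smul, norm_smul, hn, hn', mul_one, mul_one, Real.norm_of_nonneg (inv_nonneg.2 hD'.le),
    Real.norm_of_nonneg (inv_nonneg.2 hD.le)] at e7
  rw [e7] at e6
  exact (smul_right_injective E3 (inv_pos.2 hD).ne' e6).symm

lemma countable_N {K : Set E3} (hK : IsConvexBody K) {x₀ : E3} (hx : x₀ ∈ interior K) :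
    {n : E3 | ‖n‖ = 1 ∧ (interior (C K x₀ n)).Nonempty}.Countable := by
  refine Set.PairwiseDisjoint.countable_of_isOpen (s := fun n => interior (C K x₀ n)) ?_
    (fun _ _ => isOpen_interior) (fun n hn => hn.2)
  intro n hn n' hn' hne
  rw [Function.onFun, Set.disjoint_iff_inter_eq_empty]
  by_contra h
  exact hne (eq_of_inter hK hx hn.1 hn'.1 (nonempty_iff_ne_empty.2 h))

/-- two different directions of segments in the face give a cone with interior points -/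
lemma interior_C {K : Set E3} {x₀ : E3} (hx : x₀ ∈ interior K)
    (b : OrthonormalBasis (Fin 3) ℝ E3) {n p p' : E3} {σ φ φ' s s' : ℝ} (hn : n = σ • b 2)
    (hn1 : ‖n‖ = 1) (hφ : Real.sin (φ' - φ) ≠ 0) (hs : s ≠ 0) (hs' : s' ≠ 0)
    (h1 : p ∈ F K n) (h2 : p + s • dirE b φ ∈ F K n) (h3 : p' ∈ F K n)
    (h4 : p' + s' • dirE b φ' ∈ F K n) : (interior (C K x₀ n)).Nonempty := by
  rw [C, interior_convexHull_nonempty_iff_affineSpan_eq_top]
  set A := affineSpan ℝ (insert x₀ (F K n)) with hA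
  have m0 : x₀ ∈ A := subset_affineSpan ℝ _ (mem_insert _ _)
  have mF : ∀ x ∈ F K n, x ∈ A := fun x hx => subset_affineSpan ℝ _ (mem_insert_of_mem _ hx)
  have hne : (A : Set E3).Nonempty := ⟨x₀, m0⟩
  rw [← AffineSubspace.direction_eq_top_iff_of_nonempty hne, ← Submodule.orthogonal_eq_bot_iff,
    Submodule.eq_bot_iff]
  intro w hw
  rw [Submodule.mem_orthogonal] at hw
  have d1 : ⟪dirE b φ, w⟫ = 0 := by
    have := hw _ (AffineSubspace.vsub_mem_direction (mF _ h2) (mF _ h1))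
    rw [vsub_eq_sub, add_sub_cancel_left, real_inner_smul_left] at this
    exact (mul_eq_zero.1 this).resolve_left hs
  have d2 : ⟪dirE b φ', w⟫ = 0 := by
    have := hw _ (AffineSubspace.vsub_mem_direction (mF _ h4) (mF _ h3))
    rw [vsub_eq_sub, add_sub_cancel_left, real_inner_smul_left] at this
    exact (mul_eq_zero.1 this).resolve_left hs'
  have d3 : ⟪p - x₀, w⟫ = 0 := hw _ (AffineSubspace.vsub_mem_direction (mF _ h1) m0)
  have hpos := pos_of_interior hx hn1 h1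
  rw [dirE_eq, inner_add_left, real_inner_smul_left, real_inner_smul_left] at d1 d2
  have hb0 : ⟪b 0, w⟫ = 0 := by
    have e1 : Real.sin (φ' - φ) * ⟪b 0, w⟫ = 0 := by
      rw [Real.sin_sub]
      linear_combination Real.sin φ' * d1 - Real.sin φ * d2
    exact (mul_eq_zero.1 e1).resolve_left hφ
  have hb1 : ⟪b 1, w⟫ = 0 := by
    have e1 : Real.sin (φ' - φ) * ⟪b 1, w⟫ = 0 := by
      rw [Real.sin_sub]
      linear_combination Real.cos φ * d2 - Real.cos φ' * d1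
    exact (mul_eq_zero.1 e1).resolve_left hφ
  have hwe : w = ⟪b 2, w⟫ • b 2 := by
    have := b.sum_repr' w
    rw [Fin.sum_univ_three, hb0, hb1, zero_smul, zero_smul, zero_add, zero_add] at this
    exact this.symm
  have hσ : ⟪b 2, p - x₀⟫ ≠ 0 := by
    intro h
    rw [hn, real_inner_smul_left, h, mul_zero] at hpos
    exact lt_irrefl _ hpos
  rw [hwe, inner_smul_right] at d3
  rw [real_inner_comm] at hσ
  have := (mul_eq_zero.1 d3).resolve_right hσ
  rw [hwe, this, zero_smul]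

/-- the directions of segments in a face without interior -/
lemma subsingleton_dir {K : Set E3} {x₀ : E3} (hx : x₀ ∈ interior K)
    (b : OrthonormalBasis (Fin 3) ℝ E3) {n : E3} {σ : ℝ} (hn : n = σ • b 2) (hn1 : ‖n‖ = 1)
    (hN : ¬ (interior (C K x₀ n)).Nonempty) :
    {φ : ℝ | φ ∈ Ioo (-1 : ℝ) 1 ∧ ∃ (p : E3) (s : ℝ), s ≠ 0 ∧ p ∈ F K n ∧
      p + s • dirE b φ ∈ F K n}.Subsingleton := by
  rintro φ ⟨hφ, p, s, hs, h1, h2⟩ φ' ⟨hφ', p', s', hs', h3, h4⟩
  by_contra hne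
  refine hN (interior_C hx b hn hn1 ?_ hs hs' h1 h2 h3 h4)
  intro h0
  have hpi := Real.pi_gt_three
  rcases lt_or_gt_of_ne hne with hlt | hlt
  · have := Real.sin_pos_of_pos_of_lt_pi (x := φ' - φ) (by linarith)
      (by linarith [hφ.1, hφ'.2])
    exact this.ne' h0
  · have := Real.sin_pos_of_pos_of_lt_pi (x := φ - φ') (by linarith)
      (by linarith [hφ'.1, hφ.2])
    rw [← neg_sub φ φ', Real.sin_neg] at h0
    linarith

/-- a normal direction orthogonal to `u` whose two faces have no interior -/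
lemma exists_basis {K : Set E3} (hK : IsConvexBody K) {x₀ : E3} (hx : x₀ ∈ interior K) {u : E3}
    (hu : ‖u‖ = 1) : ∃ b : OrthonormalBasis (Fin 3) ℝ E3, b 0 = u ∧
      ¬ (interior (C K x₀ (b 2))).Nonempty ∧ ¬ (interior (C K x₀ ((-1 : ℝ) • b 2))).Nonempty := by
  have hcard : Module.finrank ℝ E3 = Fintype.card (Fin 3) := by simp
  obtain ⟨b₀, hb₀⟩ := Orthonormal.exists_orthonormalBasis_extension_of_card_eq (𝕜 := ℝ)
    (E := E3) (ι := Fin 3) hcard (v := fun _ => u) (s := {0}) (by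
      rw [orthonormal_iff_ite]
      rintro ⟨i, hi⟩ ⟨j, hj⟩
      have hi' : i = 0 := hi
      have hj' : j = 0 := hj
      subst hi' hj'
      simp [Set.domRestrict, hu])
  have hb0 : b₀ 0 = u := hb₀ 0 rfl
  have hib : ∀ i j : Fin 3, ⟪b₀ i, b₀ j⟫ = if i = j then (1 : ℝ) else 0 :=
    orthonormal_iff_ite.mp b₀.orthonormal
  set N : Set E3 := {n : E3 | ‖n‖ = 1 ∧ (interior (C K x₀ n)).Nonempty} with hN
  have hNc : N.Countable := countable_N hK hx
  set nn : ℝ → E3 := fun ψ => Real.cos ψ • b₀ 1 + Real.sin ψ • b₀ 2 with hnn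
  have hnorm : ∀ ψ, ⟪nn ψ, nn ψ⟫ = 1 := by
    intro ψ
    simp only [hnn, inner_add_left, inner_add_right, real_inner_smul_left, inner_smul_right, hib]
    simp
    have := Real.cos_sq_add_sin_sq ψ
    linarith
  have hnorm1 : ∀ ψ, ‖nn ψ‖ = 1 := by
    intro ψ
    have h1 := hnorm ψ
    rw [real_inner_self_eq_norm_sq] at h1
    have h2 : (0 : ℝ) ≤ ‖nn ψ‖ := norm_nonneg _
    nlinarith
  have hinj : InjOn nn (Icc 0 1) := by
    intro ψ hψ ψ' hψ' h
    have h1 : Real.cos ψ = Real.cos ψ' := by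
      have e1 : ∀ ψ, ⟪b₀ 1, nn ψ⟫ = Real.cos ψ := by
        intro ψ
        simp [hnn, inner_add_right, inner_smul_right, hib]
      rw [← e1, ← e1, h]
    have hpi := Real.pi_gt_three
    exact Real.injOn_cos ⟨hψ.1, by linarith [hψ.2]⟩ ⟨hψ'.1, by linarith [hψ'.2]⟩ h1
  have hinj' : InjOn (fun ψ => (-1 : ℝ) • nn ψ) (Icc 0 1) := by
    intro ψ hψ ψ' hψ' h
    exact hinj hψ hψ' (smul_right_injective E3 (by norm_num : (-1 : ℝ) ≠ 0) h)
  have c1 : {ψ | ψ ∈ Icc (0 : ℝ) 1 ∧ nn ψ ∈ N}.Countable :=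
    MapsTo.countable_of_injOn (f := nn) (t := N) (fun ψ hψ => hψ.2)
      (hinj.mono fun ψ hψ => hψ.1) hNc
  have c2 : {ψ | ψ ∈ Icc (0 : ℝ) 1 ∧ (-1 : ℝ) • nn ψ ∈ N}.Countable :=
    MapsTo.countable_of_injOn (f := fun ψ => (-1 : ℝ) • nn ψ) (t := N) (fun ψ hψ => hψ.2)
      (hinj'.mono fun ψ hψ => hψ.1) hNc
  obtain ⟨ψ, hψ, h1, h2⟩ : ∃ ψ ∈ Icc (0 : ℝ) 1, nn ψ ∉ N ∧ (-1 : ℝ) • nn ψ ∉ N := by
    by_contra hcon
    push Not at hcon
    have hsub : Icc (0 : ℝ) 1 ⊆ {ψ | ψ ∈ Icc (0 : ℝ) 1 ∧ nn ψ ∈ N} ∪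
        {ψ | ψ ∈ Icc (0 : ℝ) 1 ∧ (-1 : ℝ) • nn ψ ∈ N} := by
      intro ψ hψ
      by_cases h : nn ψ ∈ N
      · exact Or.inl ⟨hψ, h⟩
      · exact Or.inr ⟨hψ, hcon ψ hψ h⟩
    have h0 := ((c1.union c2).mono hsub).measure_zero volume
    rw [Real.volume_Icc] at h0
    norm_num at h0
  have hperp : ⟪u, nn ψ⟫ = 0 := by
    rw [← hb0]
    simp [hnn, inner_add_right, inner_smul_right, hib]
  obtain ⟨b, hb⟩ := Orthonormal.exists_orthonormalBasis_extension_of_card_eq (𝕜 := ℝ)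
    (E := E3) (ι := Fin 3) hcard (v := ![u, 0, nn ψ]) (s := {0, 2}) (by
      rw [orthonormal_iff_ite]
      rintro ⟨i, hi⟩ ⟨j, hj⟩
      have hi' : i = 0 ∨ i = 2 := hi
      have hj' : j = 0 ∨ j = 2 := hj
      have huu : ⟪u, u⟫ = (1 : ℝ) := by rw [real_inner_self_eq_norm_sq, hu]; norm_num
      have hperp' : ⟪nn ψ, u⟫ = 0 := by rw [real_inner_comm]; exact hperp
      rcases hi' with rfl | rfl <;> rcases hj' with rfl | rfl
      · simpa [Set.domRestrict] using huu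
      · simpa [Set.domRestrict] using hperp
      · simpa [Set.domRestrict] using hperp'
      · simpa [Set.domRestrict] using hnorm ψ)
  refine ⟨b, hb 0 (by simp), ?_, ?_⟩
  · have e : b 2 = nn ψ := hb 2 (by simp)
    rw [e]
    intro h
    exact h1 ⟨hnorm1 ψ, h⟩
  · have e : b 2 = nn ψ := hb 2 (by simp)
    rw [e]
    intro h
    refine h2 ⟨?_, h⟩
    rw [norm_smul, hnorm1]
    norm_num

/-- a direction in the plane of `b 0`, `b 1` without segments in the sections and the faces -/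
lemma noSegU {K : Set E3} (hK : IsConvexBody K) (b : OrthonormalBasis (Fin 3) ℝ E3) {φ : ℝ}
    (h1 : NSH (coordE b ⁻¹' K) φ)
    (h2 : ∀ (p : E3) (s : ℝ), s ≠ 0 → p ∈ F K (b 2) → p + s • dirE b φ ∈ F K (b 2) → False)
    (h3 : ∀ (p : E3) (s : ℝ), s ≠ 0 → p ∈ F K ((-1 : ℝ) • b 2) →
      p + s • dirE b φ ∈ F K ((-1 : ℝ) • b 2) → False) : NoSegU K (dirE b φ) := by
  intro p hp s hs hps
  set K3 : Set (ℂ × ℝ) := coordE b ⁻¹' K with hK3
  have hB : Body3 K3 := body3_preimage b hK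
  obtain ⟨z, h, hzh⟩ : ∃ (z : ℂ) (h : ℝ), coordE b (z, h) = p :=
    ⟨((coordE b).symm p).1, ((coordE b).symm p).2, by simp⟩
  have hline : ∀ t : ℝ, coordE b (z + t * e φ, h) = p + t • dirE b φ := by
    intro t
    have e1 : ((z + t * e φ, h) : ℂ × ℝ) = (z, h) + t • ((e φ, 0) : ℂ × ℝ) := by
      ext <;> simp
    rw [e1, map_add, map_smul, hzh]
    rfl
  have m1 : z ∈ sec K3 h := by
    change coordE b (z, h) ∈ K
    rw [hzh]; exact hp
  have m2 : z + s * e φ ∈ sec K3 h := by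
    change coordE b (z + s * e φ, h) ∈ K
    rw [hline]; exact hps
  by_cases hh : h ∈ Hts K3
  · have hN := h1 h hh
    set c := cen (sec K3 h) with hc
    obtain ⟨y, hy, hyt⟩ := hN (z - c) (by
        change z - c + c ∈ sec K3 h
        simpa using m1) (z + s * e φ - c) (by
        change z + s * e φ - c + c ∈ sec K3 h
        simpa using m2) (by
        intro h0
        have e1 : (s : ℂ) * e φ = 0 := by linear_combination -h0
        rcases mul_eq_zero.1 e1 with h | h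
        · exact hs (by exact_mod_cast h)
        · exact e_ne_zero φ h) (by
        simp [tc_add, tc_sub, tc_mul])
    have hy' : y + c ∈ interior (sec K3 h) := by
      have : y ∈ interior (tr (sec K3 h) c) := hy
      rw [interior_tr] at this
      exact this
    have hyt' : tc φ (y + c) = tc φ z := by
      rw [tc_add, hyt, tc_sub]; ring
    obtain ⟨t, ht⟩ : ∃ t : ℝ, y + c = z + t * e φ := by
      refine ⟨yc φ (y + c) - yc φ z, ?_⟩
      have e1 := decomp φ (y + c)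
      have e2 := decomp φ z
      rw [hyt'] at e1
      push_cast
      linear_combination e1 - e2
    refine ⟨t, ?_⟩
    rw [ht, interior_sec hB hh] at hy'
    have hy2 : (z + t * e φ, h) ∈ interior K3 := hy'
    rw [hK3] at hy2
    have e3 : interior (coordE b ⁻¹' K) = coordE b ⁻¹' interior K :=
      ((coordE b).toHomeomorph.preimage_interior K).symm
    rw [e3] at hy2
    have hy3 : coordE b (z + t * e φ, h) ∈ interior K := hy2
    rwa [hline] at hy3
  · exfalso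
    obtain ⟨a, c, hac, hH, hI⟩ := Hts_eq hB
    have hmem := hI h ⟨z, m1⟩
    have hin : ∀ x : E3, ⟪b 2, x⟫ = ((coordE b).symm x).2 := by
      intro x
      have := (inner_coord b ((coordE b).symm x)).2.2
      rw [← coordE_apply, ContinuousLinearEquiv.apply_symm_apply] at this
      exact this
    have hK' : ∀ x ∈ K, ⟪b 2, x⟫ ∈ Icc a c := by
      intro x hx
      rw [hin]
      refine hI _ ⟨((coordE b).symm x).1, ?_⟩
      change coordE b ((coordE b).symm x) ∈ K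
      rwa [ContinuousLinearEquiv.apply_symm_apply]
    have hp2 : ⟪b 2, p⟫ = h := by rw [hin, ← hzh, ContinuousLinearEquiv.symm_apply_apply]
    have hps2 : ⟪b 2, p + s • dirE b φ⟫ = h := by
      rw [hin, ← hline, ContinuousLinearEquiv.symm_apply_apply]
    rw [hH, mem_Ioo, not_and_or, not_lt, not_lt] at hh
    rcases hh with hh | hh
    · have hha : h = a := le_antisymm hh hmem.1
      refine h3 p s hs ⟨hp, fun x hx => ?_⟩ ⟨hps, fun x hx => ?_⟩
      · rw [real_inner_smul_left, real_inner_smul_left, hp2]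
        have := (hK' x hx).1
        linarith
      · rw [real_inner_smul_left, real_inner_smul_left, hps2]
        have := (hK' x hx).1
        linarith
    · have hha : h = c := le_antisymm hmem.2 hh
      refine h2 p s hs ⟨hp, fun x hx => ?_⟩ ⟨hps, fun x hx => ?_⟩
      · rw [hp2]
        have := (hK' x hx).2
        linarith
      · rw [hps2]
        have := (hK' x hx).2
        linarith

end SEG

open SEG in
theorem t_seg (hNSA : NSAStmt) : SEGStmt := by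
  intro K u ε hK hu hε
  obtain ⟨x₀, hx⟩ := hK.2.2
  obtain ⟨b, hb0, hN1, hN2⟩ := exists_basis hK hx hu
  obtain ⟨δ, hδ, hδ'⟩ : ∃ δ > 0, ∀ φ : ℝ, |φ| < δ → ‖dirE b φ - b 0‖ < ε := by
    have hc : Continuous (fun φ : ℝ => dirE b φ - b 0) := by
      simp only [dirE_eq]; fun_prop
    have h0 : dirE b 0 - b 0 = 0 := by simp [dirE_eq]
    obtain ⟨δ, hδ, h⟩ := Metric.continuousAt_iff.mp (hc.continuousAt (x := 0)) ε hε
    refine ⟨δ, hδ, fun φ hφ => ?_⟩
    have h2 := h (x := φ) (by simpa [Real.dist_eq] using hφ)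
    simpa [h0] using h2
  have hb2 : ‖b 2‖ = 1 := b.orthonormal.1 2
  have s1 := (subsingleton_dir hx b (n := b 2) (σ := 1) (by rw [one_smul]) hb2 hN1).measure_zero
    (volume : Measure ℝ)
  have s2 := (subsingleton_dir hx b (n := (-1 : ℝ) • b 2) (σ := -1) rfl
    (by rw [norm_smul, hb2]; norm_num) hN2).measure_zero (volume : Measure ℝ)
  have s3 := hNSA _ (body3_preimage b hK)
  have s1' := measure_eq_zero_iff_ae_notMem.1 s1
  have s2' := measure_eq_zero_iff_ae_notMem.1 s2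
  obtain ⟨φ, hφ, hφ1, hφ2, hφ3⟩ : ∃ φ ∈ Ioo (-(min δ 1)) (min δ 1),
      NSH (coordE b ⁻¹' K) φ ∧ φ ∉ {φ : ℝ | φ ∈ Ioo (-1 : ℝ) 1 ∧ ∃ (p : E3) (s : ℝ), s ≠ 0 ∧
        p ∈ F K (b 2) ∧ p + s • dirE b φ ∈ F K (b 2)} ∧
      φ ∉ {φ : ℝ | φ ∈ Ioo (-1 : ℝ) 1 ∧ ∃ (p : E3) (s : ℝ), s ≠ 0 ∧
        p ∈ F K ((-1 : ℝ) • b 2) ∧ p + s • dirE b φ ∈ F K ((-1 : ℝ) • b 2)} := by
    have hall := s3.and (s1'.and s2')
    by_contra hcon
    push Not at hcon
    have hz : volume (Ioo (-(min δ 1)) (min δ 1)) = 0 := by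
      refine measure_mono_null (fun φ hφ => ?_) (ae_iff.1 hall)
      intro hP
      exact hP.2.2 (hcon φ hφ hP.1 hP.2.1)
    rw [Real.volume_Ioo] at hz
    have : 0 < min δ 1 := lt_min hδ one_pos
    have := ENNReal.ofReal_pos.2 (show 0 < min δ 1 - -(min δ 1) by linarith)
    exact this.ne' hz
  have hφδ : |φ| < δ := by
    rw [abs_lt]
    exact ⟨by linarith [hφ.1, min_le_left δ 1], by linarith [hφ.2, min_le_left δ 1]⟩
  have hφI : φ ∈ Ioo (-1 : ℝ) 1 :=
    ⟨by linarith [hφ.1, min_le_right δ 1], by linarith [hφ.2, min_le_right δ 1]⟩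
  refine ⟨dirE b φ, norm_dirE b φ, ?_, ?_⟩
  · rw [← hb0]; exact hδ' φ hφδ
  · exact noSegU hK b hφ1 (fun p s hs h1 h2 => hφ2 ⟨hφI, p, s, hs, h1, h2⟩)
      (fun p s hs h1 h2 => hφ3 ⟨hφI, p, s, hs, h1, h2⟩)

end Pool.XR2
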